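import Mathlib
import Pool.Agent.Lib.MP_31cced_co.Ratio

/-!
The clique-number bound on the ratio of consecutive values of the chromatic polynomial, with the
chromatic polynomial defined through the numbers of partitions into independent sets.
-/

set_option autoImplicit false

open Finset

namespace Pool.Agent.Results.MP_31cced_co.CliqueRatio

universe u

/-- A partition of the vertex set into nonempty independent sets: a set of vertex sets, all of them
nonempty and independent, such that every vertex lies in exactly one of them. -/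
def IsIndepPartition {V : Type u} (G : SimpleGraph V) (s : Finset (Finset V)) : Prop :=
  (∀ A ∈ s, A.Nonempty ∧ ∀ a ∈ A, ∀ b ∈ A, ¬ G.Adj a b) ∧ ∀ v : V, ∃! A, A ∈ s ∧ v ∈ A

/-- `c_j(G)`: the number of partitions of the vertex set into exactly `j` nonempty independent
sets. -/
noncomputable def partCount {V : Type u} (G : SimpleGraph V) (j : ℕ) : ℕ :=
  Nat.card {s : Finset (Finset V) // s.card = j ∧ IsIndepPartition G s}

/-- The chromatic polynomial `P(G, x) = ∑_{j=1}^n c_j(G) x (x-1) ⋯ (x-j+1)` as a function of a real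
number `x`. -/
noncomputable def chromaticPoly {V : Type u} [Fintype V] (G : SimpleGraph V) (x : ℝ) : ℝ :=
  ∑ j ∈ Finset.Icc 1 (Fintype.card V), (partCount G j : ℝ) * ∏ i ∈ Finset.range j, (x - (i : ℝ))

section colourings

open Classical

variable {V : Type u} [Fintype V]

/-- The colour class of `v`. -/
noncomputable def cl {q : ℕ} (f : V → Fin q) (v : V) : Finset V :=
  Finset.univ.filter (fun w => f w = f v)

lemma mem_cl {q : ℕ} (f : V → Fin q) (v w : V) : w ∈ cl f v ↔ f w = f v := by
  simp [cl]

/-- The set of colour classes of a map. -/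
noncomputable def classes {q : ℕ} (f : V → Fin q) : Finset (Finset V) :=
  Finset.univ.image (cl f)

lemma mem_classes {q : ℕ} (f : V → Fin q) (A : Finset V) :
    A ∈ classes f ↔ ∃ v, cl f v = A := by
  simp [classes]

lemma cl_mem {q : ℕ} (f : V → Fin q) (v : V) : cl f v ∈ classes f :=
  (mem_classes f _).mpr ⟨v, rfl⟩

lemma cl_eq {q : ℕ} (f : V → Fin q) {A : Finset V} (hA : A ∈ classes f) {a : V} (ha : a ∈ A) :
    A = cl f a := by
  obtain ⟨v, rfl⟩ := (mem_classes f A).mp hA
  rw [mem_cl] at ha
  ext w
  rw [mem_cl, mem_cl, ha]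

lemma classes_part (G : SimpleGraph V) {q : ℕ} (f : V → Fin q)
    (hf : ∀ a b, G.Adj a b → f a ≠ f b) : IsIndepPartition G (classes f) := by
  constructor
  · intro A hA
    obtain ⟨v, rfl⟩ := (mem_classes f A).mp hA
    refine ⟨⟨v, (mem_cl f v v).mpr rfl⟩, ?_⟩
    intro a ha b hb hab
    rw [mem_cl] at ha hb
    exact hf a b hab (ha.trans hb.symm)
  · intro v
    refine ⟨cl f v, ⟨cl_mem f v, (mem_cl f v v).mpr rfl⟩, ?_⟩
    rintro A ⟨hA, hv⟩
    exact cl_eq f hA hv

/-- The part of `v`. -/
noncomputable def pt {G : SimpleGraph V} {s : Finset (Finset V)} (h : IsIndepPartition G s)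
    (v : V) : {A : Finset V // A ∈ s} :=
  ⟨(h.2 v).choose, (h.2 v).choose_spec.1.1⟩

lemma pt_mem {G : SimpleGraph V} {s : Finset (Finset V)} (h : IsIndepPartition G s) (v : V) :
    v ∈ (pt h v).1 := (h.2 v).choose_spec.1.2

lemma pt_eq {G : SimpleGraph V} {s : Finset (Finset V)} (h : IsIndepPartition G s) (v : V)
    (A : {A : Finset V // A ∈ s}) (hv : v ∈ A.1) : pt h v = A :=
  Subtype.ext (((h.2 v).choose_spec.2 A.1 ⟨A.2, hv⟩).symm)

/-- A point of a part. -/
noncomputable def rp {G : SimpleGraph V} {s : Finset (Finset V)} (h : IsIndepPartition G s)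
    (A : {A : Finset V // A ∈ s}) : V := (h.1 A.1 A.2).1.choose

lemma rp_mem {G : SimpleGraph V} {s : Finset (Finset V)} (h : IsIndepPartition G s)
    (A : {A : Finset V // A ∈ s}) : rp h A ∈ A.1 := (h.1 A.1 A.2).1.choose_spec

lemma pt_rp {G : SimpleGraph V} {s : Finset (Finset V)} (h : IsIndepPartition G s)
    (A : {A : Finset V // A ∈ s}) : pt h (rp h A) = A := pt_eq h _ _ (rp_mem h A)

lemma classes_emb {G : SimpleGraph V} {s : Finset (Finset V)} (h : IsIndepPartition G s) {q : ℕ}
    (e : {A : Finset V // A ∈ s} ↪ Fin q) : classes (fun v => e (pt h v)) = s := by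
  have hcl : ∀ v, cl (fun v => e (pt h v)) v = (pt h v).1 := by
    intro v
    ext w
    rw [mem_cl, e.injective.eq_iff]
    constructor
    · intro hw
      rw [← hw]
      exact pt_mem h w
    · intro hw
      exact pt_eq h w _ hw
  ext A
  rw [mem_classes]
  constructor
  · rintro ⟨v, rfl⟩
    rw [hcl]
    exact (pt h v).2
  · intro hA
    refine ⟨rp h ⟨A, hA⟩, ?_⟩
    rw [hcl, pt_rp]

/-- The proper colourings with given colour classes are the injections of the set of classes. -/
noncomputable def fibre {G : SimpleGraph V} {s : Finset (Finset V)} (h : IsIndepPartition G s)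
    (q : ℕ) : {f : V → Fin q // (∀ a b, G.Adj a b → f a ≠ f b) ∧ classes f = s} ≃
      ({A : Finset V // A ∈ s} ↪ Fin q) where
  toFun f :=
    { toFun := fun A => f.1 (rp h A)
      inj' := by
        intro A B hAB
        have hA : A.1 = cl f.1 (rp h A) := cl_eq f.1 (by rw [f.2.2]; exact A.2) (rp_mem h A)
        have hB : B.1 = cl f.1 (rp h B) := cl_eq f.1 (by rw [f.2.2]; exact B.2) (rp_mem h B)
        apply Subtype.ext
        rw [hA, hB]
        ext w
        rw [mem_cl, mem_cl]
        simp only at hAB
        rw [hAB] }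
  invFun e := ⟨fun v => e (pt h v), by
    refine ⟨?_, classes_emb h e⟩
    intro a b hab heq
    have h1 : pt h a = pt h b := e.injective heq
    have h2 : a ∈ (pt h b).1 := by
      rw [← h1]
      exact pt_mem h a
    exact (h.1 _ (pt h b).2).2 a h2 b (pt_mem h b) hab⟩
  left_inv := by
    intro f
    apply Subtype.ext
    funext v
    have h1 : (pt h v).1 = cl f.1 v := cl_eq f.1 (by rw [f.2.2]; exact (pt h v).2) (pt_mem h v)
    have h2 := rp_mem h (pt h v)
    rw [h1, mem_cl] at h2
    exact h2
  right_inv := by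
    intro e
    ext A
    show ((e (pt h (rp h A)) : Fin q) : ℕ) = e A
    rw [pt_rp]

open Pool.Agent.Lib.MP_31cced_co in
lemma P_eq_sum (G : SimpleGraph V) (q : ℕ) :
    P G q = ∑ s ∈ Finset.univ.filter (fun s : Finset (Finset V) => IsIndepPartition G s),
      q.descFactorial s.card := by
  rw [P_eq, Finset.card_eq_sum_card_fiberwise (f := classes)
    (t := Finset.univ.filter (fun s : Finset (Finset V) => IsIndepPartition G s))]
  · apply Finset.sum_congr rfl
    intro s hs
    rw [mem_filter] at hs
    have h1 := Nat.card_congr (fibre hs.2 q)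
    rw [Nat.card_eq_fintype_card (α := ({A : Finset V // A ∈ s} ↪ Fin q)),
      Fintype.card_embedding_eq, Fintype.card_fin, Fintype.card_coe] at h1
    rw [← h1]
    symm
    apply Nat.subtype_card
    intro f
    rw [mem_filter, mem_cols]
  · intro f hf
    rw [Finset.mem_coe, mem_cols] at hf
    rw [Finset.mem_coe, mem_filter]
    exact ⟨mem_univ _, classes_part G f hf⟩

lemma part_card [Nonempty V] (G : SimpleGraph V) (s : Finset (Finset V))
    (h : IsIndepPartition G s) : s.card ∈ Finset.Icc 1 (Fintype.card V) := by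
  rw [mem_Icc]
  constructor
  · have v : V := Classical.arbitrary V
    exact Finset.card_pos.mpr ⟨_, (pt h v).2⟩
  · have h1 : Function.Injective (rp h) := by
      intro A B hAB
      rw [← pt_rp h A, ← pt_rp h B, hAB]
    have h2 := Fintype.card_le_of_injective (rp h) h1
    rwa [Fintype.card_coe] at h2

lemma partCount_eq (G : SimpleGraph V) (j : ℕ) :
    partCount G j = ((Finset.univ.filter
      (fun s : Finset (Finset V) => IsIndepPartition G s)).filter (fun s => s.card = j)).card := by
  unfold partCount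
  apply Nat.subtype_card
  intro s
  simp only [mem_filter, mem_univ, true_and]
  exact and_comm

open Pool.Agent.Lib.MP_31cced_co in
lemma chromaticPoly_nat [Nonempty V] (G : SimpleGraph V) (q : ℕ) :
    chromaticPoly G (q : ℝ) = P G q := by
  rw [P_eq_sum, ← Finset.sum_fiberwise_of_maps_to (t := Finset.Icc 1 (Fintype.card V))
    (g := fun s : Finset (Finset V) => s.card)]
  · unfold chromaticPoly
    push_cast
    apply Finset.sum_congr rfl
    intro j _
    rw [partCount_eq, ← descPochhammer_eval_eq_prod_range, descPochhammer_eval_eq_descFactorial]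
    rw [← nsmul_eq_mul, ← Finset.sum_const]
    apply Finset.sum_congr rfl
    intro s hs
    rw [mem_filter] at hs
    rw [hs.2]
  · intro s hs
    rw [mem_filter] at hs
    exact part_card G s hs.2

open Pool.Agent.Lib.MP_31cced_co in
lemma P_pos (G : SimpleGraph V) (q : ℕ) (hq : Fintype.card V ≤ q) : 0 < P G q := by
  rw [P_eq, Finset.card_pos]
  obtain ⟨e⟩ : Nonempty (V ↪ Fin q) := Function.Embedding.nonempty_of_card_le (by simpa using hq)
  refine ⟨e, ?_⟩
  rw [mem_cols]
  intro a b hab h
  exact hab.ne (e.injective h)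

end colourings

/-- For every finite simple graph `G` with `n ≥ 1` vertices and clique number `ω` and every integer
`λ ≥ n`, the value `P(G, λ)` of the chromatic polynomial is positive and
`P(G, λ - 1) / P(G, λ) ≤ (1 - ω / λ) (1 - 1 / λ) ^ (n - ω)`. -/
theorem result (V : Type u) [Fintype V] [Nonempty V] (G : SimpleGraph V) (lam : ℕ)
    (hlam : Fintype.card V ≤ lam) :
    0 < chromaticPoly G (lam : ℝ) ∧
      chromaticPoly G ((lam : ℝ) - 1) / chromaticPoly G (lam : ℝ) ≤
        (1 - (G.cliqueNum : ℝ) / (lam : ℝ)) *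
          (1 - 1 / (lam : ℝ)) ^ (Fintype.card V - G.cliqueNum) := by
  have hn : 0 < Fintype.card V := Fintype.card_pos
  have h1 : 1 ≤ lam := by omega
  have hc : ((lam : ℝ) - 1) = ((lam - 1 : ℕ) : ℝ) := by
    rw [Nat.cast_sub h1]
    simp
  have hpos : (0 : ℝ) < (Pool.Agent.Lib.MP_31cced_co.P G lam : ℝ) := by
    exact_mod_cast P_pos G lam hlam
  rw [hc, chromaticPoly_nat, chromaticPoly_nat]
  refine ⟨hpos, ?_⟩
  rw [div_le_iff₀ hpos]
  exact Pool.Agent.Lib.MP_31cced_co.ratio_bound (Fintype.card V) V G lam G.cliqueNum rfl hlam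
    G.exists_isNClique_cliqueNum

end Pool.Agent.Results.MP_31cced_co.CliqueRatio
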